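import Mathlib

set_option autoImplicit false

namespace Pool.Agent.H.MP_86c288_co

open Classical

variable {V : Type} (G : SimpleGraph V)

def P {k : ℕ} (c : V → Fin k) (T : Finset V) : Prop :=
  ∀ x ∈ T, ∀ y ∈ T, G.Adj x y → c x ≠ c y

theorem P_mono {k : ℕ} {c : V → Fin k} {T U : Finset V} (h : P G c T) (hU : U ⊆ T) :
    P G c U := fun x hx y hy => h x (hU hx) y (hU hy)

theorem extend {k : ℕ} {c : V → Fin k} {T : Finset V} (h : P G c T) (x : V)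
    (hj : ∃ j, ∀ y ∈ T, G.Adj x y → c y ≠ j) :
    ∃ c' : V → Fin k, P G c' (insert x T) ∧ ∀ y ∈ T, c' y = c y := by
  by_cases hx : x ∈ T
  · exact ⟨c, by rw [Finset.insert_eq_of_mem hx]; exact h, fun _ _ => rfl⟩
  obtain ⟨j, hj⟩ := hj
  have hne : ∀ y ∈ T, y ≠ x := fun y hy e => hx (e ▸ hy)
  refine ⟨Function.update c x j, ?_, fun y hy => Function.update_of_ne (hne y hy) _ _⟩
  intro a ha b hb hab
  rcases Finset.mem_insert.1 ha with rfl | ha'
  · rcases Finset.mem_insert.1 hb with rfl | hb'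
    · exact absurd hab (G.irrefl)
    · rw [Function.update_self, Function.update_of_ne (hne b hb')]
      exact (hj b hb' hab).symm
  · rcases Finset.mem_insert.1 hb with rfl | hb'
    · rw [Function.update_self, Function.update_of_ne (hne a ha')]
      exact hj a ha' hab.symm
    · rw [Function.update_of_ne (hne a ha'), Function.update_of_ne (hne b hb')]
      exact h a ha' b hb' hab

theorem exists_min (k : ℕ) (U : Finset V) (h : ¬ ∃ c : V → Fin k, P G c U) :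
    ∃ T ⊆ U, (¬ ∃ c : V → Fin k, P G c T) ∧
      ∀ x ∈ T, ∃ c : V → Fin k, P G c (T.erase x) := by
  obtain ⟨T, hT, hmin⟩ := Finset.exists_min_image
    (U.powerset.filter (fun T => ¬ ∃ c : V → Fin k, P G c T)) Finset.card
    ⟨U, Finset.mem_filter.2 ⟨Finset.mem_powerset_self U, h⟩⟩
  rw [Finset.mem_filter, Finset.mem_powerset] at hT
  refine ⟨T, hT.1, hT.2, fun x hx => ?_⟩
  by_contra hc
  have := hmin (T.erase x) (Finset.mem_filter.2
    ⟨Finset.mem_powerset.2 ((Finset.erase_subset x T).trans hT.1), hc⟩)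
  have h2 := Finset.card_erase_lt_of_mem hx
  omega

theorem stuck {k : ℕ} {T : Finset V} (hT : ¬ ∃ c : V → Fin k, P G c T) {x : V} (hx : x ∈ T)
    {c : V → Fin k} (hc : P G c (T.erase x)) (j : Fin k) :
    ∃ y ∈ T, G.Adj x y ∧ c y = j := by
  by_contra hne
  push Not at hne
  obtain ⟨c', hc', -⟩ := extend G hc x
    ⟨j, fun y hy hxy => hne y (Finset.mem_of_mem_erase hy) hxy⟩
  rw [Finset.insert_erase hx] at hc'
  exact hT ⟨c', hc'⟩

theorem twin {k : ℕ} {T : Finset V} (hT : ¬ ∃ c : V → Fin k, P G c T)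
    (hmin : ∀ x ∈ T, ∃ c : V → Fin k, P G c (T.erase x)) {x z : V} (hx : x ∈ T) (hz : z ∈ T)
    (hxz : x ≠ z) (_hn : ¬ G.Adj x z) : ∃ w ∈ T, G.Adj x w ∧ ¬ G.Adj z w := by
  obtain ⟨c, hc⟩ := hmin x hx
  obtain ⟨y, hy, hxy, hcy⟩ := stuck G hT hx hc (c z)
  refine ⟨y, hy, hxy, fun hzy => ?_⟩
  exact hc z (Finset.mem_erase.2 ⟨hxz.symm, hz⟩) y (Finset.mem_erase.2 ⟨hxy.ne.symm, hy⟩) hzy
    hcy.symm

theorem path4 (htri : ∀ x y z, G.Adj x y → G.Adj y z → ¬ G.Adj x z) (U : Finset V)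
    (h : ¬ ∃ c : V → Fin 2, P G c U) :
    ∃ p ∈ U, ∃ q ∈ U, ∃ r ∈ U, ∃ s ∈ U, G.Adj p q ∧ G.Adj q r ∧ G.Adj r s ∧ ¬ G.Adj p s ∧
      p ≠ r ∧ q ≠ s ∧ p ≠ s := by
  obtain ⟨T, hTU, hT, hmin⟩ := exists_min G 2 U h
  have h2 : ∀ x ∈ T, ∀ y, ∃ w ∈ T, G.Adj x w ∧ w ≠ y := by
    intro x hx y
    obtain ⟨c, hc⟩ := hmin x hx
    obtain ⟨j, hj⟩ : ∃ j : Fin 2, j ≠ c y := exists_ne _
    obtain ⟨w, hw, hxw, hcw⟩ := stuck G hT hx hc j
    exact ⟨w, hw, hxw, fun e => hj (by rw [← hcw, e])⟩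
  have hne : T.Nonempty := by
    rw [Finset.nonempty_iff_ne_empty]
    rintro rfl
    exact hT ⟨fun _ => 0, fun x hx => absurd hx (Finset.notMem_empty x)⟩
  obtain ⟨x, hx⟩ := hne
  obtain ⟨y, hy, hxy, -⟩ := h2 x hx x
  obtain ⟨z, hz, hyz, hzx⟩ := h2 y hy x
  have hxz := htri x y z hxy hyz
  obtain ⟨w, hw, hxw, hzw⟩ := twin G hT hmin hx hz hzx.symm hxz
  refine ⟨w, hTU hw, x, hTU hx, y, hTU hy, z, hTU hz, hxw.symm, hxy, hyz, fun e => hzw e.symm,
    ?_, hzx.symm, ?_⟩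
  · rintro rfl; exact hzw hyz.symm
  · rintro rfl; exact hxz hxw

theorem key (htri : ∀ x y z, G.Adj x y → G.Adj y z → ¬ G.Adj x z) (E I : V → Prop)
    (hpick : ∀ x y z, ∃ i, I i ∧ i ≠ x ∧ i ≠ y ∧ i ≠ z)
    (hI : ∀ i, I i → ¬ E i ∧ ∃ e, E e ∧ G.Adj e i) (H : Finset V)
    (hH : ∀ x ∈ H, ¬ E x ∧ ¬ I x ∧ ∀ e, E e → ¬ G.Adj x e)
    (h3 : ∀ x ∈ H, ∀ y z, ∃ w, G.Adj x w ∧ w ≠ y ∧ w ≠ z)
    (h : ¬ ∃ c : V → Fin 2, P G c H) :
    ∃ f : V → Fin 5, Function.Surjective f ∧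
      ∀ i j : Fin 5, i ≠ j → ∃ u v, G.Adj u v ∧ f u = i ∧ f v = j := by
  obtain ⟨p, hp, q, hq, r, hr, s, hs, hpq, hqr, hrs, hps, npr, nqs, nps⟩ := path4 G htri H h
  have hpr := htri p q r hpq hqr
  have hqs := htri q r s hqr hrs
  obtain ⟨a3, h3q, n3p, n3r⟩ := h3 q hq p r
  obtain ⟨a0, h0s, n0r, n03⟩ := h3 s hs r a3
  obtain ⟨a2, h2p, n2q, n20⟩ := h3 p hp q a0
  have n3q : a3 ≠ q := h3q.ne.symm
  have n0s : a0 ≠ s := h0s.ne.symm
  have n2p : a2 ≠ p := h2p.ne.symm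
  have n0q : a0 ≠ q := by rintro rfl; exact hqs h0s.symm
  have n2s : a2 ≠ s := by rintro rfl; exact hps h2p
  have n23 : a2 ≠ a3 := by rintro rfl; exact htri p q a2 hpq h3q h2p
  have e3 : ¬ E a3 := fun e => (hH q hq).2.2 _ e h3q
  have e0 : ¬ E a0 := fun e => (hH s hs).2.2 _ e h0s
  have e2 : ¬ E a2 := fun e => (hH p hp).2.2 _ e h2p
  obtain ⟨i1, I1, n10, n12, n13⟩ := hpick a0 a2 a3
  obtain ⟨i0, I0, m01, m02, m03, x0⟩ :
      ∃ i, I i ∧ i ≠ i1 ∧ i ≠ a2 ∧ i ≠ a3 ∧ (I a0 → i = a0) := by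
    by_cases h0 : I a0
    · exact ⟨a0, h0, n10.symm, n20.symm, n03, fun _ => rfl⟩
    · obtain ⟨i, hi, u1, u2, u3⟩ := hpick i1 a2 a3
      exact ⟨i, hi, u1, u2, u3, fun e => absurd e h0⟩
  obtain ⟨i2, I2, m20, m21, m23, m2a, x2⟩ :
      ∃ i, I i ∧ i ≠ i0 ∧ i ≠ i1 ∧ i ≠ a3 ∧ i ≠ a0 ∧ (I a2 → i = a2) := by
    by_cases h0 : I a2
    · exact ⟨a2, h0, m02.symm, n12.symm, n23, n20, fun _ => rfl⟩
    · obtain ⟨i, hi, u1, u2, u3⟩ := hpick i0 i1 a3
      refine ⟨i, hi, u1, u2, u3, ?_, fun e => absurd e h0⟩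
      rintro rfl
      exact u1 (x0 hi).symm
  obtain ⟨i3, I3, m30, m31, m32, m3a, m3b⟩ :
      ∃ i, I i ∧ i ≠ i0 ∧ i ≠ i1 ∧ i ≠ i2 ∧ i ≠ a0 ∧ i ≠ a2 := by
    by_cases h0 : I a3
    · exact ⟨a3, h0, m03.symm, n13.symm, m23.symm, n03.symm, n23.symm⟩
    · obtain ⟨i, hi, u1, u2, u3⟩ := hpick i0 i1 i2
      refine ⟨i, hi, u1, u2, u3, ?_, ?_⟩
      · rintro rfl
        exact u1 (x0 hi).symm
      · rintro rfl
        exact u3 (x2 hi).symm
  have nI : ∀ x ∈ H, ∀ i, I i → x ≠ i := fun x hx i hi e => (hH x hx).2.1 (e ▸ hi)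
  have npq := hpq.ne
  have nqr := hqr.ne
  have nrs := hrs.ne
  let f : V → Fin 5 := fun z =>
    if E z then 4 else if z = p ∨ z = a0 ∨ z = i0 then 0 else if z = q ∨ z = i1 then 1
    else if z = r ∨ z = a2 ∨ z = i2 then 2 else 3
  have fE : ∀ e, E e → f e = 4 := fun e he => by simp [f, he]
  have fp : f p = 0 := by simp [f, (hH p hp).1]
  have fq : f q = 1 := by
    simp [f, (hH q hq).1, npq.symm, n0q.symm, nI q hq i0 I0]
  have fr : f r = 2 := by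
    simp [f, (hH r hr).1, npr.symm, n0r.symm, nI r hr i0 I0, nqr.symm, nI r hr i1 I1]
  have fs : f s = 3 := by
    simp [f, (hH s hs).1, nps.symm, n0s.symm, nI s hs i0 I0, nqs.symm, nI s hs i1 I1,
      nrs.symm, n2s.symm, nI s hs i2 I2]
  have fa0 : f a0 = 0 := by simp [f, e0]
  have fa2 : f a2 = 2 := by simp [f, e2, n2p, n20, m02.symm, n2q, n12.symm]
  have fa3 : f a3 = 3 := by
    simp [f, e3, n3p, n03.symm, m03.symm, n3q, n13.symm, n3r, n23.symm, m23.symm]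
  have fi0 : f i0 = 0 := by simp [f, (hI i0 I0).1]
  have fi1 : f i1 = 1 := by
    simp [f, (hI i1 I1).1, (nI p hp i1 I1).symm, n10, m01.symm]
  have fi2 : f i2 = 2 := by
    simp [f, (hI i2 I2).1, (nI p hp i2 I2).symm, m2a, m20, (nI q hq i2 I2).symm, m21]
  have fi3 : f i3 = 3 := by
    simp [f, (hI i3 I3).1, (nI p hp i3 I3).symm, m3a, m30, (nI q hq i3 I3).symm, m31,
      (nI r hr i3 I3).symm, m3b, m32]
  obtain ⟨b0, E0, g0⟩ := (hI i0 I0).2
  obtain ⟨b1, E1, g1⟩ := (hI i1 I1).2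
  obtain ⟨b2, E2, g2⟩ := (hI i2 I2).2
  obtain ⟨b3, E3, g3⟩ := (hI i3 I3).2
  have hsym : ∀ i j : Fin 5, (∃ u v, G.Adj u v ∧ f u = i ∧ f v = j) →
      ∃ u v, G.Adj u v ∧ f u = j ∧ f v = i := by
    rintro i j ⟨u, v, h1, h2, h3⟩
    exact ⟨v, u, h1.symm, h3, h2⟩
  have c01 : ∃ u v, G.Adj u v ∧ f u = 0 ∧ f v = 1 := ⟨p, q, hpq, fp, fq⟩
  have c02 : ∃ u v, G.Adj u v ∧ f u = 0 ∧ f v = 2 := ⟨p, a2, h2p, fp, fa2⟩
  have c03 : ∃ u v, G.Adj u v ∧ f u = 0 ∧ f v = 3 := ⟨a0, s, h0s.symm, fa0, fs⟩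
  have c04 : ∃ u v, G.Adj u v ∧ f u = 0 ∧ f v = 4 := ⟨i0, b0, g0.symm, fi0, fE _ E0⟩
  have c12 : ∃ u v, G.Adj u v ∧ f u = 1 ∧ f v = 2 := ⟨q, r, hqr, fq, fr⟩
  have c13 : ∃ u v, G.Adj u v ∧ f u = 1 ∧ f v = 3 := ⟨q, a3, h3q, fq, fa3⟩
  have c14 : ∃ u v, G.Adj u v ∧ f u = 1 ∧ f v = 4 := ⟨i1, b1, g1.symm, fi1, fE _ E1⟩
  have c23 : ∃ u v, G.Adj u v ∧ f u = 2 ∧ f v = 3 := ⟨r, s, hrs, fr, fs⟩
  have c24 : ∃ u v, G.Adj u v ∧ f u = 2 ∧ f v = 4 := ⟨i2, b2, g2.symm, fi2, fE _ E2⟩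
  have c34 : ∃ u v, G.Adj u v ∧ f u = 3 ∧ f v = 4 := ⟨i3, b3, g3.symm, fi3, fE _ E3⟩
  refine ⟨f, ?_, ?_⟩
  · intro i
    fin_cases i
    · exact ⟨p, fp⟩
    · exact ⟨q, fq⟩
    · exact ⟨r, fr⟩
    · exact ⟨s, fs⟩
    · exact ⟨b0, fE _ E0⟩
  · intro i j hij
    fin_cases i <;> fin_cases j <;> first
      | exact absurd rfl hij
      | assumption
      | exact hsym _ _ (by assumption)

theorem pick4 {a b c d : V} (I : V → Prop) (ha : I a) (hb : I b) (hc : I c) (hd : I d)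
    (ab : a ≠ b) (ac : a ≠ c) (ad : a ≠ d) (bc : b ≠ c) (bd : b ≠ d) (cd : c ≠ d) (x y z : V) :
    ∃ i, I i ∧ i ≠ x ∧ i ≠ y ∧ i ≠ z := by
  by_contra h
  push Not at h
  have h' : ∀ i, I i → i = x ∨ i = y ∨ i = z := fun i hi => by
    by_contra hh
    push Not at hh
    exact hh.2.2 (h i hi hh.1 hh.2.1)
  rcases h' a ha with h1 | h1 | h1 <;> rcases h' b hb with h2 | h2 | h2 <;>
    rcases h' c hc with h3 | h3 | h3 <;> rcases h' d hd with h4 | h4 | h4 <;> first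
    | exact ab (h1.trans h2.symm)
    | exact ac (h1.trans h3.symm)
    | exact ad (h1.trans h4.symm)
    | exact bc (h2.trans h3.symm)
    | exact bd (h2.trans h4.symm)
    | exact cd (h3.trans h4.symm)

theorem lift3 {c : V → Fin 2} {H : Finset V} (h : P G c H) (J : Finset V)
    (hJ : ∀ x ∈ J, ∀ y ∈ J, ¬ G.Adj x y) :
    ∃ c' : V → Fin 3, P G c' (H ∪ J) ∧ ∀ x ∈ J, c' x = 2 := by
  refine ⟨fun z => if z ∈ J then 2 else (c z).castSucc, ?_, fun x hx => by simp [hx]⟩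
  intro x hx y hy hxy
  have hl : ∀ a : Fin 2, a.castSucc ≠ (2 : Fin 3) := by decide
  by_cases h1 : x ∈ J <;> by_cases h2 : y ∈ J
  · exact absurd hxy (hJ x h1 y h2)
  · simp only [h1, h2, if_true, if_false]; exact (hl _).symm
  · simp only [h1, h2, if_true, if_false]; exact hl _
  · simp only [h1, h2, if_false]
    intro e
    exact h x ((Finset.mem_union.1 hx).resolve_right h1) y
      ((Finset.mem_union.1 hy).resolve_right h2) hxy (Fin.castSucc_injective _ e)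

theorem main [Fintype V] (htri : ∀ x y z, G.Adj x y → G.Adj y z → ¬ G.Adj x z)
    (h : ¬ ∃ c : V → Fin 3, P G c Finset.univ) :
    ∃ f : V → Fin 5, Function.Surjective f ∧
      ∀ i j : Fin 5, i ≠ j → ∃ u v, G.Adj u v ∧ f u = i ∧ f v = j := by
  obtain ⟨S, -, hS, hmin⟩ := exists_min G 3 Finset.univ h
  have two : ∀ a b : Fin 3, ∃ j : Fin 3, j ≠ a ∧ j ≠ b := by decide
  have h3 : ∀ x ∈ S, ∀ y z, ∃ w ∈ S, G.Adj x w ∧ w ≠ y ∧ w ≠ z := by
    intro x hx y z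
    obtain ⟨c, hc⟩ := hmin x hx
    obtain ⟨j, hj, hj'⟩ := two (c y) (c z)
    obtain ⟨w, hw, hxw, hcw⟩ := stuck G hS hx hc j
    exact ⟨w, hw, hxw, fun e => hj (by rw [← hcw, e]), fun e => hj' (by rw [← hcw, e])⟩
  by_cases hD : ∀ x a b c d, G.Adj x a → G.Adj x b → G.Adj x c → G.Adj x d → a ≠ b → a ≠ c →
      b ≠ c → d = a ∨ d = b ∨ d = c
  swap
  · push Not at hD
    obtain ⟨v, a, b, c, d, ha, hb, hc, hd, ab, ac, bc, da, db, dc⟩ := hD
    refine key G htri (fun z => z = v) (fun z => G.Adj v z)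
      (pick4 _ ha hb hc hd ab ac da.symm bc db.symm dc.symm)
      (fun i hi => ⟨hi.ne.symm, v, rfl, hi⟩) (S.filter (fun z => z ≠ v ∧ ¬ G.Adj v z)) ?_ ?_ ?_
    · intro x hx
      rw [Finset.mem_filter] at hx
      refine ⟨hx.2.1, hx.2.2, ?_⟩
      rintro e rfl he
      exact hx.2.2 he.symm
    · intro x hx y z
      obtain ⟨w, -, hw⟩ := h3 x (Finset.mem_filter.1 hx).1 y z
      exact ⟨w, hw⟩
    · rintro ⟨c, hc⟩
      obtain ⟨c', hc', hJ⟩ := lift3 G hc (S.filter (fun z => G.Adj v z)) (by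
        intro x hx y hy hxy
        exact htri v x y (Finset.mem_filter.1 hx).2 hxy (Finset.mem_filter.1 hy).2)
      obtain ⟨c2, hc2, -⟩ := extend G hc' v ⟨0, by
        intro y hy hvy
        rcases Finset.mem_union.1 hy with hy | hy
        · exact absurd hvy (Finset.mem_filter.1 hy).2.2
        · rw [hJ y hy]; decide⟩
      refine hS ⟨c2, P_mono G hc2 ?_⟩
      intro x hx
      by_cases e : x = v
      · simp [e]
      · by_cases e' : G.Adj v x <;> simp [e, e', hx]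
  have greedy : ∀ (c : V → Fin 3) (T : Finset V) (x e : V), G.Adj x e → e ∉ T →
      ∃ j, ∀ y ∈ T, G.Adj x y → c y ≠ j := by
    intro c T x e hxe he
    by_contra hc
    push Not at hc
    obtain ⟨y0, t0, a0, c0⟩ := hc 0
    obtain ⟨y1, t1, a1, c1⟩ := hc 1
    obtain ⟨y2, t2, a2, c2⟩ := hc 2
    have n01 : y0 ≠ y1 := by rintro rfl; rw [c0] at c1; exact absurd c1 (by decide)
    have n02 : y0 ≠ y2 := by rintro rfl; rw [c0] at c2; exact absurd c2 (by decide)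
    have n12 : y1 ≠ y2 := by rintro rfl; rw [c1] at c2; exact absurd c2 (by decide)
    rcases hD x y0 y1 y2 e a0 a1 a2 hxe n01 n02 n12 with rfl | rfl | rfl <;> exact he ‹_›
  have hne : S.Nonempty := by
    rw [Finset.nonempty_iff_ne_empty]
    rintro rfl
    exact hS ⟨fun _ => 0, fun x hx => absurd hx (Finset.notMem_empty x)⟩
  obtain ⟨l, hl⟩ := hne
  obtain ⟨v, hv, lv, -⟩ := h3 l hl l l
  obtain ⟨v', hv', lv', nvv, -⟩ := h3 l hl v v
  have hvv : ¬ G.Adj v v' := htri v l v' lv.symm lv'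
  obtain ⟨a, ha, va, nal, -⟩ := h3 v hv l l
  obtain ⟨b, hb, vb, nbl, nba⟩ := h3 v hv l a
  obtain ⟨u, hu, vu, nul, -⟩ := h3 v' hv' l l
  obtain ⟨t, ht, vt, ntl, ntu⟩ := h3 v' hv' l u
  obtain ⟨w, hw, vw, nvw⟩ := twin G hS hmin hv' hv nvv (fun e => hvv e.symm)
  refine key G htri (fun z => z = v ∨ z = v') (fun z => G.Adj v z ∨ G.Adj v' z)
    (pick4 (a := l) (b := a) (c := b) (d := w) _ (Or.inl lv.symm) (Or.inl va) (Or.inl vb)
      (Or.inr vw) nal.symm nbl.symm (by rintro rfl; exact nvw lv.symm) nba.symm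
      (by rintro rfl; exact nvw va) (by rintro rfl; exact nvw vb)) ?_
    (S.filter (fun z => z ≠ v ∧ z ≠ v' ∧ ¬ G.Adj v z ∧ ¬ G.Adj v' z)) ?_ ?_ ?_
  · rintro i (hi | hi)
    · refine ⟨?_, v, Or.inl rfl, hi⟩
      rintro (rfl | rfl)
      · exact G.irrefl hi
      · exact hvv hi
    · refine ⟨?_, v', Or.inr rfl, hi⟩
      rintro (rfl | rfl)
      · exact hvv hi.symm
      · exact G.irrefl hi
  · intro x hx
    rw [Finset.mem_filter] at hx
    obtain ⟨-, h1, h2, h3, h4⟩ := hx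
    refine ⟨by tauto, by tauto, ?_⟩
    rintro e (rfl | rfl) he
    · exact h3 he.symm
    · exact h4 he.symm
  · intro x hx y z
    obtain ⟨w, -, hw⟩ := h3 x (Finset.mem_filter.1 hx).1 y z
    exact ⟨w, hw⟩
  rintro ⟨c, hc⟩
  have fin : ∀ a b u t, G.Adj v a → G.Adj v b → a ≠ l → b ≠ l → b ≠ a → G.Adj v' u →
      G.Adj v' t → u ≠ l → t ≠ l → t ≠ u → G.Adj a u := by
    intro a b u t va vb nal nbl nba vu vt nul ntl ntu
    by_contra hau
    have hla : ¬ G.Adj l a := htri l v a lv va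
    have hlu : ¬ G.Adj l u := htri l v' u lv' vu
    obtain ⟨c1, hc1, hJ⟩ := lift3 G hc {l, a, u} (by
      intro x hx y hy hxy
      simp only [Finset.mem_insert, Finset.mem_singleton] at hx hy
      rcases hx with rfl | rfl | rfl <;> rcases hy with rfl | rfl | rfl <;> first
        | exact G.irrefl hxy
        | contradiction
        | exact absurd hxy.symm ‹_›)
    have nva : v ≠ a := va.ne
    have nvb : v ≠ b := vb.ne
    have nvl : v ≠ l := lv.ne.symm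
    have nvu : v ≠ u := by rintro rfl; exact hvv vu.symm
    have nvt : v ≠ t := by rintro rfl; exact hvv vt.symm
    have mvu : v' ≠ u := vu.ne
    have mvt : v' ≠ t := vt.ne
    have mvl : v' ≠ l := lv'.ne.symm
    have mva : v' ≠ a := by rintro rfl; exact hvv va
    have mvb : v' ≠ b := by rintro rfl; exact hvv vb
    obtain ⟨c2, hc2, e2⟩ := extend G hc1 b (greedy c1 _ b v vb.symm (by simp [nva, nvl, nvu]))
    obtain ⟨c3, hc3, e3⟩ := extend G hc2 t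
      (greedy c2 _ t v' vt.symm (by simp [mva, mvl, mvu, mvb]))
    have l3 : c3 l = 2 := by rw [e3 l (by simp), e2 l (by simp), hJ l (by simp)]
    have a3 : c3 a = 2 := by rw [e3 a (by simp), e2 a (by simp), hJ a (by simp)]
    have u3 : c3 u = 2 := by rw [e3 u (by simp), e2 u (by simp), hJ u (by simp)]
    obtain ⟨c4, hc4, e4⟩ := extend G hc3 v (by
      obtain ⟨j, j1, j2⟩ := two 2 (c3 b)
      refine ⟨j, fun y _ hy => ?_⟩
      rcases hD v l a b y lv.symm va vb hy nal.symm nbl.symm nba.symm with rfl | rfl | rfl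
      · rw [l3]; exact j1.symm
      · rw [a3]; exact j1.symm
      · exact j2.symm)
    have l4 : c4 l = 2 := by rw [e4 l (by simp), l3]
    have u4 : c4 u = 2 := by rw [e4 u (by simp), u3]
    obtain ⟨c5, hc5, -⟩ := extend G hc4 v' (by
      obtain ⟨j, j1, j2⟩ := two 2 (c4 t)
      refine ⟨j, fun y _ hy => ?_⟩
      rcases hD v' l u t y lv'.symm vu vt hy nul.symm ntl.symm ntu.symm with rfl | rfl | rfl
      · rw [l4]; exact j1.symm
      · rw [u4]; exact j1.symm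
      · exact j2.symm)
    refine hS ⟨c5, P_mono G hc5 ?_⟩
    intro x hx
    by_cases e1 : x = v
    · simp [e1]
    by_cases e2 : x = v'
    · simp [e2]
    by_cases e3 : G.Adj v x
    · rcases hD v l a b x lv.symm va vb e3 nal.symm nbl.symm nba.symm with rfl | rfl | rfl <;>
        simp
    by_cases e4 : G.Adj v' x
    · rcases hD v' l u t x lv'.symm vu vt e4 nul.symm ntl.symm ntu.symm with rfl | rfl | rfl <;>
        simp
    simp [hx, e1, e2, e3, e4]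
  have au := fin a b u t va vb nal nbl nba vu vt nul ntl ntu
  have at' := fin a b t u va vb nal nbl nba vt vu ntl nul ntu.symm
  have bu := fin b a u t vb va nbl nal nba.symm vu vt nul ntl ntu
  have bt := fin b a t u vb va nbl nal nba.symm vt vu ntl nul ntu.symm
  obtain ⟨y, -, uy, ty⟩ := twin G hS hmin hu ht ntu.symm (htri u v' t vu.symm vt)
  have mva : v' ≠ a := by rintro rfl; exact hvv va
  have mvb : v' ≠ b := by rintro rfl; exact hvv vb
  rcases hD u v' a b y vu.symm au.symm bu.symm uy mva mvb nba.symm with rfl | rfl | rfl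
  · exact ty vt.symm
  · exact ty at'.symm
  · exact ty bt.symm

end Pool.Agent.H.MP_86c288_co
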